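import Mathlib

/-!
# MP_f92aba_nt, Q1: a nontrivial multiplicative relation among the numbers `t! / t^t`

With `f(x) = Γ(1+x) x^{-x}`, so that `f(t) = t!/t^t` for integers `t ≥ 2`, we have
`f(4) f(10) f(12) f(15) f(18) f(21) f(32) = f(3) f(5) f(6) f(7) f(8) f(14) f(16) f(20) f(36)`,
a relation between two disjoint sets of sizes `7` and `9`.  This disproves the statement of Q1.
-/

namespace Pool.Agent.Results.MP_f92aba_nt.Relation

/-- The function `f(x) = Γ(1+x) x^{-x}` of the problem (real power). -/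
noncomputable def f (x : ℝ) : ℝ := Real.Gamma (1 + x) * x ^ (-x)

theorem f_natCast (t : ℕ) : f (t : ℝ) = (t.factorial : ℝ) / (t : ℝ) ^ t := by
  unfold f
  rw [add_comm, Real.Gamma_nat_eq_factorial, Real.rpow_neg (Nat.cast_nonneg t),
    Real.rpow_natCast, div_eq_mul_inv]

theorem rat_relation :
    ∏ t ∈ ({4, 10, 12, 15, 18, 21, 32} : Finset ℕ), ((t.factorial : ℚ) / (t : ℚ) ^ t) =
      ∏ t ∈ ({3, 5, 6, 7, 8, 14, 16, 20, 36} : Finset ℕ), ((t.factorial : ℚ) / (t : ℚ) ^ t) := by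
  norm_num [Finset.prod_insert, Nat.factorial]

/-- **Negative answer to Q1.**  There are two disjoint finite sets `T` and `S` of integers `≥ 2`,
with different numbers of elements, such that
`∏_{t ∈ T} f(t) = ∏_{s ∈ S} f(s)`, where `f(x) = Γ(1+x) x^{-x}` and `f(t) = t!/t^t`. -/
theorem result :
    (∀ t : ℕ, 2 ≤ t → f (t : ℝ) = (t.factorial : ℝ) / (t : ℝ) ^ t) ∧
    ∃ T S : Finset ℕ, (∀ t ∈ T, 2 ≤ t) ∧ (∀ s ∈ S, 2 ≤ s) ∧ Disjoint T S ∧
      T.card ≠ S.card ∧ T ≠ S ∧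
      ∏ t ∈ T, f (t : ℝ) = ∏ s ∈ S, f (s : ℝ) := by
  refine ⟨fun t _ => f_natCast t, {4, 10, 12, 15, 18, 21, 32}, {3, 5, 6, 7, 8, 14, 16, 20, 36},
    by decide, by decide, by decide, by decide, by decide, ?_⟩
  have h := congrArg (fun q : ℚ => (q : ℝ)) rat_relation
  simp only [Rat.cast_prod, Rat.cast_div, Rat.cast_natCast, Rat.cast_pow] at h
  rw [Finset.prod_congr rfl (fun t _ => f_natCast t), Finset.prod_congr rfl (fun t _ => f_natCast t)]
  exact h

end Pool.Agent.Results.MP_f92aba_nt.Relation
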